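import Mathlib

set_option autoImplicit false

/-!
# MP_09fe95_al: tensor powers of monoid modules contain modules induced from the group of units

Let `M` be a finite monoid with group of units `G`, let `k` be an infinite field (for instance an
algebraically closed one) and let `V` be a nonzero finite-dimensional `kM`-module on which only the
element `1` acts as the identity. Then some tensor power of `V` has a direct summand `Ind(W)` with
`W` a nonzero `kG`-module.

Idea: one writes down a pure tensor `x` and a product functional `f` on a tensor power such that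
`f x = 1`, all non-units kill `x` and `f`, and `f (g x) = 0` for all units `g` which do not act as
scalars on `V`. Then `W = k[G / Z]`, where `Z` is the group of units acting as scalars, works.
-/

open scoped TensorProduct

namespace Pool.Agent.Results.MP_09fe95_al.InducedSummand

universe u v w

/-- The `n`-th tensor power of a representation `ρ` of a monoid, with the diagonal action
`m (v₁ ⊗ ⋯ ⊗ vₙ) = m v₁ ⊗ ⋯ ⊗ m vₙ`. -/
noncomputable def tensorPower {M : Type u} [Monoid M] {k : Type v} [Field k] {V : Type w}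
    [AddCommGroup V] [Module k V] (ρ : Representation k M V) (n : ℕ) :
    Representation k M (⨂[k] _ : Fin n, V) where
  toFun m := PiTensorProduct.map (fun _ => ρ m)
  map_one' := by simp only [map_one]; exact PiTensorProduct.map_one
  map_mul' a b := by simp only [map_mul]; exact PiTensorProduct.map_mul _ _

open Classical in
/-- The module `Ind(W)` of a module `W` over the group of units: the underlying space is `W`, units
act as on `W` and non-units act as `0`. -/
noncomputable def Ind {M : Type u} [Monoid M] [Finite M] {k : Type v} [Field k] {W : Type w}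
    [AddCommGroup W] [Module k W] (τ : Representation k Mˣ W) : Representation k M W where
  toFun m := if h : IsUnit m then τ h.unit else 0
  map_one' := by
    rw [dif_pos isUnit_one]
    have : (isUnit_one : IsUnit (1 : M)).unit = 1 := Units.ext rfl
    rw [this, map_one]
  map_mul' a b := by
    by_cases ha : IsUnit a
    · by_cases hb : IsUnit b
      · rw [dif_pos ha, dif_pos hb, dif_pos (ha.mul hb), ← map_mul]
        congr 1
        exact Units.ext rfl
      · have hab : ¬ IsUnit (a * b) := by
          intro h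
          apply hb
          have h2 := (ha.unit⁻¹).isUnit.mul h
          rwa [← mul_assoc, IsUnit.val_inv_mul, one_mul] at h2
        rw [dif_neg hb, dif_neg hab, mul_zero]
    · have hab : ¬ IsUnit (a * b) := by
        intro h
        apply ha
        obtain ⟨c, hc⟩ := h.exists_right_inv
        have h1 : a * (b * c) = 1 := by rw [← mul_assoc]; exact hc
        -- in a finite monoid right inverses are inverses
        have hsurj : Function.Surjective (fun x : M => a * x) := by
          intro y
          exact ⟨b * c * y, by simp only; rw [← mul_assoc, h1, one_mul]⟩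
        have hinj : Function.Injective (fun x : M => a * x) := Finite.injective_iff_surjective.2 hsurj
        have h2 : (b * c) * a = 1 := by
          apply hinj
          simp only
          rw [← mul_assoc, h1, one_mul, mul_one]
        exact ⟨⟨a, b * c, h1, h2⟩, rfl⟩
      rw [dif_neg ha, dif_neg hab, zero_mul]

open Classical in
theorem Ind_apply {M : Type u} [Monoid M] [Finite M] {k : Type v} [Field k] {W : Type w}
    [AddCommGroup W] [Module k W] (τ : Representation k Mˣ W) (m : M) :
    Ind τ m = if h : IsUnit m then τ h.unit else 0 := rfl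

theorem Ind_unit {M : Type u} [Monoid M] [Finite M] {k : Type v} [Field k] {W : Type w}
    [AddCommGroup W] [Module k W] (τ : Representation k Mˣ W) (g : Mˣ) :
    Ind τ (g : M) = τ g := by
  rw [Ind_apply, dif_pos g.isUnit]
  congr 1
  exact Units.ext rfl

theorem Ind_nonunit {M : Type u} [Monoid M] [Finite M] {k : Type v} [Field k] {W : Type w}
    [AddCommGroup W] [Module k W] (τ : Representation k Mˣ W) (m : M) (hm : ¬ IsUnit m) :
    Ind τ m = 0 := by
  rw [Ind_apply, dif_neg hm]

/-- The representation `α` is isomorphic to a direct summand of `β`: there are homomorphisms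
`W → X → W` with composition the identity. -/
def IsSummand {M : Type u} [Monoid M] {k : Type v} [Field k] {W X : Type*}
    [AddCommGroup W] [Module k W] [AddCommGroup X] [Module k X]
    (α : Representation k M W) (β : Representation k M X) : Prop :=
  ∃ (i : W →ₗ[k] X) (r : X →ₗ[k] W), r ∘ₗ i = LinearMap.id ∧
    (∀ m, i ∘ₗ α m = β m ∘ₗ i) ∧ (∀ m, r ∘ₗ β m = α m ∘ₗ r)

section

variable {M : Type u} [Monoid M] [Finite M] {k : Type v} [Field k]
  {V : Type w} [AddCommGroup V] [Module k V] [FiniteDimensional k V]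

/-- A functional with value `1` at a vector outside a subspace which vanishes on the subspace. -/
lemma exists_functional (p : Submodule k V) (x : V) (hx : x ∉ p) :
    ∃ f : V →ₗ[k] k, f x = 1 ∧ ∀ y ∈ p, f y = 0 := by
  obtain ⟨f, hf, hp⟩ := Submodule.exists_dual_map_eq_bot_of_notMem hx inferInstance
  refine ⟨(f x)⁻¹ • f, by simp [hf], fun y hy => ?_⟩
  have : f y ∈ p.map f := Submodule.mem_map_of_mem hy
  rw [hp, Submodule.mem_bot] at this
  simp [this]

omit [FiniteDimensional k V] in
/-- Non-units do not act injectively. -/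
lemma not_injective (ρ : Representation k M V) (h1 : ∀ m : M, ρ m = 1 → m = 1) (m : M)
    (hm : ¬ IsUnit m) : ¬ Function.Injective (ρ m) := by
  intro hinj
  apply hm
  obtain ⟨i, j, hij, he⟩ : ∃ i j : ℕ, i < j ∧ m ^ i = m ^ j := by
    obtain ⟨i, j, hne, he⟩ := Finite.exists_ne_map_eq_of_infinite (fun n : ℕ => m ^ n)
    rcases lt_or_gt_of_ne hne with h | h
    · exact ⟨i, j, h, he⟩
    · exact ⟨j, i, h, he.symm⟩
  obtain ⟨d, rfl⟩ := Nat.exists_eq_add_of_lt hij
  have hinj' : Function.Injective ((ρ m) ^ i : Module.End k V) := by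
    rw [Module.End.coe_pow]
    exact hinj.iterate i
  have h2 : ρ (m ^ (d + 1)) = 1 := by
    ext x
    apply hinj'
    have : ρ (m ^ i * m ^ (d + 1)) = ρ (m ^ i) := by
      rw [← pow_add, ← add_assoc, he]
    rw [map_mul, map_pow ρ m i] at this
    exact LinearMap.congr_fun this x
  have h3 := h1 _ h2
  rw [pow_succ] at h3
  have h4 : m * m ^ d = 1 := by rw [← pow_succ', pow_succ]; exact h3
  exact ⟨⟨m, m ^ d, h4, h3⟩, rfl⟩

/-- The group of units acting as scalars. -/
def scalars (ρ : Representation k M V) : Subgroup Mˣ where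
  carrier := {g | ∃ c : k, ρ g = c • 1}
  one_mem' := ⟨1, by simp⟩
  mul_mem' := by
    rintro a b ⟨c, hc⟩ ⟨d, hd⟩
    exact ⟨c * d, by rw [Units.val_mul, map_mul, hc, hd, smul_mul_assoc, one_mul, smul_smul]⟩
  inv_mem' := by
    rintro a ⟨c, hc⟩
    have h : ρ (a : M) * ρ ((a⁻¹ : Mˣ) : M) = 1 := by
      rw [← map_mul, Units.mul_inv, map_one]
    rcases eq_or_ne c 0 with rfl | hc0
    · rw [hc, zero_smul, zero_mul] at h
      refine ⟨0, ?_⟩
      rw [← one_mul (ρ ((a⁻¹ : Mˣ) : M)), ← h]
      simp
    · refine ⟨c⁻¹, ?_⟩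
      rw [hc, smul_mul_assoc, one_mul] at h
      rw [← h, smul_smul, inv_mul_cancel₀ hc0, one_smul]

/-- There is a vector which is not an eigenvector of any unit outside `scalars`. -/
lemma exists_generic [Infinite k] [Nontrivial V] (ρ : Representation k M V) :
    ∃ x : V, x ≠ 0 ∧ ∀ g : Mˣ, g ∉ scalars ρ → x ∉ Submodule.span k {ρ g x} := by
  classical
  have hfin : Finite Mˣ := inferInstance
  let ι := Option (Σ g : {g : Mˣ // g ∉ scalars ρ}, Module.End.Eigenvalues (ρ (g.1 : M)))
  have : Finite ι := inferInstance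
  let p : ι → Submodule k V := fun j => match j with
    | none => ⊥
    | some j => Module.End.eigenspace (ρ (j.1.1 : M)) (j.2 : k)
  have hp : ∀ j, p j ≠ ⊤ := by
    rintro (_ | ⟨⟨g, hg⟩, μ⟩) h
    · exact bot_ne_top h
    · apply hg
      refine ⟨(μ : k), ?_⟩
      ext x
      have : x ∈ Module.End.eigenspace (ρ (g : M)) (μ : k) := by
        have h' : Module.End.eigenspace (ρ (g : M)) (μ : k) = ⊤ := h
        rw [h']
        exact Submodule.mem_top
      rw [Module.End.mem_eigenspace_iff] at this
      simpa using this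
  have hne : ⋃ j, (p j : Set V) ≠ Set.univ := by
    intro h
    obtain ⟨j, hj⟩ := Subspace.exists_eq_top_of_iUnion_eq_univ h
    exact hp j hj
  obtain ⟨x, hx⟩ := (Set.ne_univ_iff_exists_notMem _).1 hne
  simp only [Set.mem_iUnion, SetLike.mem_coe, not_exists] at hx
  have hx0 : x ≠ 0 := by
    intro h
    exact hx none (by rw [h]; exact Submodule.zero_mem _)
  refine ⟨x, hx0, fun g hg hmem => ?_⟩
  obtain ⟨c, hc⟩ := Submodule.mem_span_singleton.1 hmem
  have hc0 : c ≠ 0 := by
    rintro rfl
    rw [zero_smul] at hc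
    exact hx0 hc.symm
  have hev : ρ (g : M) x = c⁻¹ • x := by
    have h := congrArg (fun y => c⁻¹ • y) hc
    simp only [smul_smul, inv_mul_cancel₀ hc0, one_smul] at h
    exact h
  have hE : Module.End.HasEigenvector (ρ (g : M)) c⁻¹ x :=
    ⟨Module.End.mem_eigenspace_iff.2 hev, hx0⟩
  have hv : Module.End.HasEigenvalue (ρ (g : M)) c⁻¹ := Module.End.hasEigenvalue_of_hasEigenvector hE
  exact hx (some ⟨⟨g, hg⟩, ⟨c⁻¹, hv⟩⟩) (Module.End.mem_eigenspace_iff.2 hev)

/-- The vector and the functional on a tensor power. -/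
lemma exists_pair [Infinite k] [Nontrivial V] (ρ : Representation k M V)
    (h1 : ∀ m : M, ρ m = 1 → m = 1) :
    ∃ (n : ℕ) (_ : 1 ≤ n) (x : ⨂[k] _ : Fin n, V) (f : (⨂[k] _ : Fin n, V) →ₗ[k] k),
      f x = 1 ∧ (∀ m : M, ¬ IsUnit m → tensorPower ρ n m x = 0) ∧
      (∀ m : M, ¬ IsUnit m → f ∘ₗ tensorPower ρ n m = 0) ∧
      (∀ g : Mˣ, g ∉ scalars ρ → f (tensorPower ρ n g x) = 0) ∧
      (∀ g : Mˣ, g ∈ scalars ρ → tensorPower ρ n g = 1) := by
  classical
  have := Fintype.ofFinite M
  have := Fintype.ofFinite Mˣ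
  obtain ⟨v, hv0, hv⟩ := exists_generic ρ
  -- functionals for the units
  have hφ : ∀ g : Mˣ, ∃ φ : V →ₗ[k] k, φ v = 1 ∧ (g ∉ scalars ρ → φ (ρ g v) = 0) := by
    intro g
    by_cases hg : g ∈ scalars ρ
    · obtain ⟨φ, hφ, -⟩ := exists_functional (⊥ : Submodule k V) v (by simpa using hv0)
      exact ⟨φ, hφ, fun h => absurd hg h⟩
    · obtain ⟨φ, hφ, h2⟩ := exists_functional _ v (hv g hg)
      exact ⟨φ, hφ, fun _ => h2 _ (Submodule.mem_span_singleton_self _)⟩
  choose φ hφ1 hφ2 using hφ
  -- kernel vectors of the non-units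
  have ha : ∀ m : {m : M // ¬ IsUnit m}, ∃ (a : V) (d : V →ₗ[k] k), ρ m.1 a = 0 ∧ d a = 1 := by
    rintro ⟨m, hm⟩
    have h := not_injective ρ h1 m hm
    rw [← LinearMap.ker_eq_bot, Submodule.eq_bot_iff] at h
    push Not at h
    obtain ⟨a, ha, ha0⟩ := h
    obtain ⟨d, hd, -⟩ := exists_functional (⊥ : Submodule k V) a (by simpa using ha0)
    exact ⟨a, d, ha, hd⟩
  choose a d ha hd using ha
  -- cokernel functionals of the non-units
  have hb : ∀ m : {m : M // ¬ IsUnit m}, ∃ (c : V) (b : V →ₗ[k] k), b c = 1 ∧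
      ∀ y, b (ρ m.1 y) = 0 := by
    rintro ⟨m, hm⟩
    have h := not_injective ρ h1 m hm
    rw [LinearMap.injective_iff_surjective, ← LinearMap.range_eq_top] at h
    obtain ⟨c, -, hc⟩ := SetLike.exists_of_lt (lt_top_iff_ne_top.2 h)
    obtain ⟨b, hb, h2⟩ := exists_functional _ c hc
    exact ⟨c, b, hb, fun y => h2 _ (LinearMap.mem_range_self _ y)⟩
  choose c b hb hb2 using hb
  let T := (Mˣ ⊕ {m : M // ¬ IsUnit m} ⊕ {m : M // ¬ IsUnit m}) × Mˣ
  let n := Fintype.card T
  let e : Fin n ≃ T := (Fintype.equivFin T).symm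
  let X : T → V := fun t => Sum.elim (fun _ => v) (Sum.elim a c) t.1
  let F : T → (V →ₗ[k] k) := fun t => Sum.elim φ (Sum.elim d b) t.1
  let x : ⨂[k] _ : Fin n, V := PiTensorProduct.tprod k (fun i => X (e i))
  let f : (⨂[k] _ : Fin n, V) →ₗ[k] k :=
    PiTensorProduct.lift ((MultilinearMap.mkPiAlgebra k (Fin n) k).compLinearMap
      (fun i => F (e i)))
  have hf : ∀ u : Fin n → V, f (PiTensorProduct.tprod k u) = ∏ i, F (e i) (u i) := by
    intro u
    simp [f]
  have hT : ∀ (m : M) (u : Fin n → V), tensorPower ρ n m (PiTensorProduct.tprod k u) =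
      PiTensorProduct.tprod k (fun i => ρ m (u i)) := by
    intro m u
    exact PiTensorProduct.map_tprod _ _
  have hFX : ∀ t, F t (X t) = 1 := by
    rintro ⟨t | t | t, s⟩
    · exact hφ1 t
    · exact hd t
    · exact hb t
  have hn : 1 ≤ n := Fintype.card_pos_iff.2 ⟨(Sum.inl 1, 1)⟩
  refine ⟨n, hn, x, f, ?_, ?_, ?_, ?_, ?_⟩
  · simp only [x]
    rw [hf]
    exact Finset.prod_eq_one fun i _ => hFX _
  · intro m hm
    simp only [x]
    rw [hT]
    refine MultilinearMap.map_coord_zero _ (e.symm (Sum.inr (Sum.inl ⟨m, hm⟩), 1)) ?_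
    simp only [Equiv.apply_symm_apply, X, Sum.elim_inr, Sum.elim_inl]
    exact ha ⟨m, hm⟩
  · intro m hm
    ext u
    simp only [LinearMap.compMultilinearMap_apply, LinearMap.comp_apply, LinearMap.zero_apply]
    rw [hT, hf]
    refine Finset.prod_eq_zero (Finset.mem_univ (e.symm (Sum.inr (Sum.inr ⟨m, hm⟩), 1))) ?_
    simp only [Equiv.apply_symm_apply, F, Sum.elim_inr]
    exact hb2 ⟨m, hm⟩ _
  · intro g hg
    simp only [x]
    rw [hT, hf]
    refine Finset.prod_eq_zero (Finset.mem_univ (e.symm (Sum.inl g, 1))) ?_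
    simp only [Equiv.apply_symm_apply, F, X, Sum.elim_inl]
    exact hφ2 g hg
  · rintro g ⟨s, hs⟩
    have hs1 : s ^ Fintype.card Mˣ = 1 := by
      have h2 : ρ ((g ^ Fintype.card Mˣ : Mˣ) : M) = 1 := by
        rw [pow_card_eq_one, Units.val_one, map_one]
      rw [Units.val_pow_eq_pow_val, map_pow, hs, smul_pow, one_pow] at h2
      have h3 := LinearMap.congr_fun h2 v
      simp only [LinearMap.smul_apply, Module.End.one_apply] at h3
      have h4 : (s ^ Fintype.card Mˣ - 1) • v = 0 := by rw [sub_smul, h3, one_smul, sub_self]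
      rcases smul_eq_zero.1 h4 with h5 | h5
      · exact sub_eq_zero.1 h5
      · exact absurd h5 hv0
    have hsn : s ^ n = 1 := by
      have : n = Fintype.card (Mˣ ⊕ {m : M // ¬ IsUnit m} ⊕ {m : M // ¬ IsUnit m}) *
          Fintype.card Mˣ := Fintype.card_prod _ _
      rw [this, mul_comm, pow_mul, hs1, one_pow]
    ext u
    simp only [LinearMap.compMultilinearMap_apply, Module.End.one_apply]
    rw [hT]
    have : (fun i => ρ (g : M) (u i)) = fun i => s • u i := by
      funext i
      rw [hs]
      rfl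
    rw [this, MultilinearMap.map_smul_univ]
    simp [hsn]

end

/-- **Positive answer to Q1.** Let `M` be a finite monoid, let `k` be an infinite field (for
instance an algebraically closed one) and let `ρ` be a representation of `M` on a nonzero
finite-dimensional `k`-space `V` for which only `1` acts as the identity. Then there are `n ≥ 1` and
a nonzero finite-dimensional representation `τ` of the group of units of `M` such that `Ind τ` is
isomorphic to a direct summand of the `n`-th tensor power of `ρ`. -/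
theorem result {M : Type u} [Monoid M] [Finite M] {k : Type v} [Field k] [Infinite k]
    {V : Type w} [AddCommGroup V] [Module k V] [FiniteDimensional k V] [Nontrivial V]
    (ρ : Representation k M V) (h1 : ∀ m : M, ρ m = 1 → m = 1) :
    ∃ (n : ℕ) (W : Type (max u v)) (_ : AddCommGroup W) (_ : Module k W)
      (τ : Representation k Mˣ W),
      1 ≤ n ∧ FiniteDimensional k W ∧ Nontrivial W ∧ IsSummand (Ind τ) (tensorPower ρ n) := by
  classical
  obtain ⟨n, hn, x, f, hfx, hx, hf, hg, hz⟩ := exists_pair ρ h1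
  have := Fintype.ofFinite Mˣ
  set Z := scalars ρ with hZ
  have := Fintype.ofFinite (Mˣ ⧸ Z)
  set β := tensorPower ρ n with hβ
  -- elements in the same coset act in the same way
  have hcos : ∀ (g h : Mˣ), (g : Mˣ ⧸ Z) = (h : Mˣ ⧸ Z) → β g = β h := by
    intro g h hgh
    rw [QuotientGroup.eq] at hgh
    have e : (h : M) = (g : M) * ((g⁻¹ * h : Mˣ) : M) := by
      rw [← Units.val_mul, mul_inv_cancel_left]
    rw [e, map_mul, hz _ hgh, mul_one]
  have hcos' : ∀ (g h : Mˣ), (g : Mˣ ⧸ Z) = (h : Mˣ ⧸ Z) →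
      β ((g⁻¹ : Mˣ) : M) = β ((h⁻¹ : Mˣ) : M) := by
    intro g h hgh
    rw [QuotientGroup.eq] at hgh
    have e : ((g⁻¹ : Mˣ) : M) = ((g⁻¹ * h : Mˣ) : M) * ((h⁻¹ : Mˣ) : M) := by
      rw [← Units.val_mul]
      congr 1
      group
    rw [e, map_mul, hz _ hgh, one_mul]
  -- the module `k[G / Z]`
  let τ : Representation k Mˣ ((Mˣ ⧸ Z) → k) :=
    { toFun := fun g => LinearMap.funLeft k k (fun q => g⁻¹ • q)
      map_one' := by ext; simp
      map_mul' := by
        intro g h
        apply LinearMap.ext
        intro y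
        funext q
        simp [LinearMap.funLeft_apply, mul_smul] }
  have hτ : ∀ (g : Mˣ) (y : (Mˣ ⧸ Z) → k) (q : Mˣ ⧸ Z), τ g y q = y (g⁻¹ • q) := fun _ _ _ => rfl
  let i : ((Mˣ ⧸ Z) → k) →ₗ[k] (⨂[k] _ : Fin n, V) :=
    ∑ q : Mˣ ⧸ Z, (LinearMap.toSpanSingleton k _ (β (q.out : M) x)) ∘ₗ LinearMap.proj q
  have hi : ∀ y, i y = ∑ q : Mˣ ⧸ Z, y q • β (q.out : M) x := by
    intro y
    simp [i, LinearMap.sum_apply]
  let r : (⨂[k] _ : Fin n, V) →ₗ[k] ((Mˣ ⧸ Z) → k) :=
    LinearMap.pi fun q => f ∘ₗ β ((q.out⁻¹ : Mˣ) : M)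
  have hr : ∀ y q, r y q = f (β ((q.out⁻¹ : Mˣ) : M) y) := fun _ _ => rfl
  refine ⟨n, (Mˣ ⧸ Z) → k, inferInstance, inferInstance, τ, hn, inferInstance, inferInstance,
    i, r, ?_, ?_, ?_⟩
  · apply LinearMap.ext
    intro y
    funext q
    rw [LinearMap.comp_apply, hr, hi, map_sum, map_sum, LinearMap.id_apply]
    rw [Finset.sum_eq_single q]
    · rw [map_smul, map_smul, ← Module.End.mul_apply, ← map_mul, ← Units.val_mul, inv_mul_cancel,
        Units.val_one, map_one, Module.End.one_apply, hfx, smul_eq_mul, mul_one]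
    · intro q' _ hq'
      rw [map_smul, map_smul, ← Module.End.mul_apply, ← map_mul, ← Units.val_mul]
      have : q.out⁻¹ * q'.out ∉ Z := by
        intro h
        rw [← QuotientGroup.eq, QuotientGroup.out_eq', QuotientGroup.out_eq'] at h
        exact hq' h.symm
      rw [hg _ this, smul_zero]
    · intro h
      exact absurd (Finset.mem_univ q) h
  · intro m
    apply LinearMap.ext
    intro y
    by_cases hm : IsUnit m
    · obtain ⟨g, rfl⟩ := hm
      have hI : Ind τ (g : M) = τ g := Ind_unit τ g
      rw [LinearMap.comp_apply, LinearMap.comp_apply, hI, hi, hi, map_sum]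
      rw [← Equiv.sum_comp (MulAction.toPerm g : Equiv.Perm (Mˣ ⧸ Z))]
      refine Finset.sum_congr rfl fun q _ => ?_
      rw [MulAction.toPerm_apply, hτ, inv_smul_smul, map_smul, ← Module.End.mul_apply, ← map_mul,
        ← Units.val_mul]
      have e := hcos (g • q : Mˣ ⧸ Z).out (g * q.out) (by
        rw [QuotientGroup.out_eq']
        exact (MulAction.Quotient.mk_smul_out Z g q).symm)
      rw [e]
    · have hI : Ind τ m = 0 := Ind_nonunit τ m hm
      rw [LinearMap.comp_apply, LinearMap.comp_apply, hI, LinearMap.zero_apply, map_zero, hi,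
        map_sum]
      refine (Finset.sum_eq_zero fun q _ => ?_).symm
      rw [map_smul, ← Module.End.mul_apply, ← map_mul, hx, smul_zero]
      intro h
      apply hm
      have h2 := h.mul (q.out⁻¹).isUnit
      rwa [mul_assoc, Units.mul_inv, mul_one] at h2
  · intro m
    apply LinearMap.ext
    intro y
    funext q
    by_cases hm : IsUnit m
    · obtain ⟨g, rfl⟩ := hm
      have hI : Ind τ (g : M) = τ g := Ind_unit τ g
      rw [LinearMap.comp_apply, LinearMap.comp_apply, hI, hτ, hr, hr, ← Module.End.mul_apply,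
        ← map_mul, ← Units.val_mul]
      congr 1
      have e : q.out⁻¹ * g = (g⁻¹ * q.out)⁻¹ := by group
      rw [e]
      refine LinearMap.congr_fun (hcos' _ _ ?_) y
      rw [QuotientGroup.out_eq']
      exact MulAction.Quotient.mk_smul_out Z g⁻¹ q
    · have hI : Ind τ m = 0 := Ind_nonunit τ m hm
      rw [LinearMap.comp_apply, LinearMap.comp_apply, hI, LinearMap.zero_apply, hr,
        ← Module.End.mul_apply, ← map_mul]
      refine LinearMap.congr_fun (hf _ ?_) y
      intro h
      apply hm
      have h2 := (q.out).isUnit.mul h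
      rwa [← mul_assoc, Units.mul_inv, one_mul] at h2

end Pool.Agent.Results.MP_09fe95_al.InducedSummand
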